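import Pool.Agent.Helper94.DG.Defs

/-!
# Digests: class averaging and the density of the law of three weights
-/

set_option autoImplicit false

open Finset

namespace Pool.Agent.Helper56.DG

open Pool.Agent.Helper94.DG

/-! ### The kernel -/

theorem ker_nonneg {α : Type} [Fintype α] (δ : α → ℕ) (x x' : α) : 0 ≤ ker δ x x' := by
  unfold ker
  split_ifs
  · positivity
  · exact le_rfl

theorem card_class_congr {α : Type} [Fintype α] (δ : α → ℕ) (x x' : α) (h : δ x = δ x') :
    (univ.filter fun z => δ z = δ x).card = (univ.filter fun z => δ z = δ x').card := by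
  rw [h]

theorem ker_symm {α : Type} [Fintype α] (δ : α → ℕ) (x x' : α) : ker δ x x' = ker δ x' x := by
  unfold ker
  by_cases h : δ x = δ x'
  · rw [if_pos h, if_pos h.symm, h]
  · rw [if_neg h, if_neg (fun h' => h h'.symm)]

theorem card_class_pos {α : Type} [Fintype α] (δ : α → ℕ) (x : α) :
    0 < (univ.filter fun z => δ z = δ x).card :=
  Finset.card_pos.2 ⟨x, by simp⟩

theorem ker_sum {α : Type} [Fintype α] (δ : α → ℕ) (x : α) : ∑ x', ker δ x x' = 1 := by
  unfold ker
  have h := card_class_pos δ x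
  have h1 : ∀ x' : α, (if δ x = δ x' then ((univ.filter fun z => δ z = δ x).card : ℝ)⁻¹ else 0) =
      (if δ x' = δ x then ((univ.filter fun z => δ z = δ x).card : ℝ)⁻¹ else 0) := by
    intro x'
    by_cases h : δ x = δ x'
    · rw [if_pos h, if_pos h.symm]
    · rw [if_neg h, if_neg (fun h' => h h'.symm)]
  rw [Finset.sum_congr rfl (fun x' _ => h1 x'), ← Finset.sum_filter, Finset.sum_const,
    nsmul_eq_mul]
  have h2 : ((univ.filter fun z => δ z = δ x).card : ℝ) ≠ 0 := by positivity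
  exact mul_inv_cancel₀ h2

theorem eq_of_ker {α : Type} [Fintype α] (δ : α → ℕ) (x x' : α) (h : ker δ x x' ≠ 0) :
    δ x = δ x' := by
  by_contra hne
  exact h (by unfold ker; rw [if_neg hne])

/-- `1 / (size of the class of x)`. -/
noncomputable def rcp {α : Type} [Fintype α] (δ : α → ℕ) (x : α) : ℝ :=
  ((univ.filter fun z => δ z = δ x).card : ℝ)⁻¹

theorem rcp_nonneg {α : Type} [Fintype α] (δ : α → ℕ) (x : α) : 0 ≤ rcp δ x := by
  unfold rcp; positivity

theorem ker_le {α : Type} [Fintype α] (δ : α → ℕ) (x x' : α) : ker δ x x' ≤ rcp δ x' := by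
  rw [ker_symm]
  unfold ker
  split_ifs with h
  · exact le_rfl
  · exact rcp_nonneg δ x'

theorem sum_rcp {α : Type} [Fintype α] (δ : α → ℕ) (K : ℕ) (h : ∀ x, δ x < K) :
    ∑ x, rcp δ x ≤ K := by
  have h1 : ∑ x, rcp δ x = ∑ k ∈ range K, ∑ x ∈ univ.filter (fun x => δ x = k), rcp δ x :=
    (Finset.sum_fiberwise_of_maps_to (fun x _ => Finset.mem_range.2 (h x)) _).symm
  rw [h1]
  have h2 : ∀ k ∈ range K, ∑ x ∈ univ.filter (fun x => δ x = k), rcp δ x ≤ 1 := by
    intro k _
    have h3 : ∀ x ∈ univ.filter (fun x => δ x = k),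
        rcp δ x = ((univ.filter fun z => δ z = k).card : ℝ)⁻¹ := by
      intro x hx
      unfold rcp
      rw [(Finset.mem_filter.1 hx).2]
    rw [Finset.sum_congr rfl h3, Finset.sum_const, nsmul_eq_mul]
    exact mul_inv_le_one
  calc ∑ k ∈ range K, ∑ x ∈ univ.filter (fun x => δ x = k), rcp δ x ≤ ∑ k ∈ range K, (1 : ℝ) :=
        Finset.sum_le_sum h2
    _ = K := by simp

/-! ### The kernel of a side -/

section
variable {α : Type} [Fintype α] [DecidableEq α]

theorem kerd_nonneg (d : Bool) (δ : α → ℕ) (x x' : α) : 0 ≤ kerd d δ x x' := by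
  unfold kerd
  split_ifs
  · exact ker_nonneg _ _ _
  · exact zero_le_one
  · exact le_rfl

theorem kerd_symm (d : Bool) (δ : α → ℕ) (x x' : α) : kerd d δ x x' = kerd d δ x' x := by
  unfold kerd
  rw [ker_symm δ x x']
  by_cases h : x = x'
  · subst h
    rfl
  · have h' : ¬ x' = x := fun e => h e.symm
    simp only [h, h', if_false]

theorem kerd_sum (d : Bool) (δ : α → ℕ) (x : α) : ∑ x', kerd d δ x x' = 1 := by
  unfold kerd
  cases d
  · simp
  · simpa using ker_sum δ x

theorem kerd_sum' (d : Bool) (δ : α → ℕ) (x : α) : ∑ x', kerd d δ x' x = 1 := by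
  rw [Finset.sum_congr rfl (fun x' _ => kerd_symm d δ x' x), kerd_sum]

/-- The sum of the kernel over the image of an injective map is at most one. -/
theorem kerd_sum_inj {β : Type} [Fintype β] (d : Bool) (δ : α → ℕ) (x : α) (g : β → α)
    (hg : Function.Injective g) : ∑ t, kerd d δ (g t) x ≤ 1 := by
  classical
  calc ∑ t, kerd d δ (g t) x = ∑ u ∈ univ.image g, kerd d δ u x := by
        rw [Finset.sum_image (fun a _ b _ h => hg h)]
    _ ≤ ∑ u, kerd d δ u x :=
        Finset.sum_le_sum_of_subset_of_nonneg (Finset.subset_univ _)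
          (fun u _ _ => kerd_nonneg d δ u x)
    _ = 1 := kerd_sum' d δ x

end

theorem add_inj_right {L : ℕ} (x : Fin L) : Function.Injective (fun y : Fin L => add x y) := by
  intro y y' h
  have h1 := congrArg Fin.val h
  simp only [add] at h1
  exact Fin.ext (by omega)

theorem add_inj_left {L : ℕ} (y : Fin L) : Function.Injective (fun x : Fin L => add x y) := by
  intro x x' h
  have h1 := congrArg Fin.val h
  simp only [add] at h1
  exact Fin.ext (by omega)

/-! ### The density -/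

theorem dens_nonneg {L : ℕ} (d : Fin 3 → Bool) (a b : Fin L → ℕ) (c : Fin (2 * L) → ℕ)
    (x y : Fin L) (w : Fin (2 * L)) : 0 ≤ dens d a b c x y w := by
  unfold Pool.Agent.Helper94.DG.dens
  refine mul_nonneg (by positivity) (Finset.sum_nonneg fun x' _ => Finset.sum_nonneg fun y' _ => ?_)
  exact mul_nonneg (mul_nonneg (kerd_nonneg _ _ _ _) (kerd_nonneg _ _ _ _)) (kerd_nonneg _ _ _ _)

/-- The two kernels of the sides `01` and `12` have the total mass one. -/
theorem sum_two {L : ℕ} (d : Fin 3 → Bool) (a b : Fin L → ℕ) (x y : Fin L) :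
    ∑ x' : Fin L, ∑ y' : Fin L, kerd (d 0) a x' x * kerd (d 1) b y' y = 1 := by
  rw [← Finset.sum_mul_sum, kerd_sum', kerd_sum', one_mul]

theorem dens_w {L : ℕ} (d : Fin 3 → Bool) (a b : Fin L → ℕ) (c : Fin (2 * L) → ℕ)
    (x y : Fin L) : ∑ w, dens d a b c x y w = 2 * L := by
  unfold Pool.Agent.Helper94.DG.dens
  rw [← Finset.mul_sum, Finset.sum_comm]
  have h : ∀ x' : Fin L, ∑ w : Fin (2 * L), ∑ y' : Fin L,
      kerd (d 0) a x' x * kerd (d 1) b y' y * kerd (d 2) c (add x' y') w =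
      ∑ y' : Fin L, kerd (d 0) a x' x * kerd (d 1) b y' y := by
    intro x'
    rw [Finset.sum_comm]
    refine Finset.sum_congr rfl fun y' _ => ?_
    rw [← Finset.mul_sum, kerd_sum, mul_one]
  rw [Finset.sum_congr rfl (fun x' _ => h x'), sum_two, mul_one]

theorem dens_xy {L : ℕ} (d : Fin 3 → Bool) (a b : Fin L → ℕ) (c : Fin (2 * L) → ℕ)
    (w : Fin (2 * L)) : ∑ x, ∑ y, dens d a b c x y w ≤ 2 * (L : ℝ) ^ 2 := by
  have h1 : ∑ x, ∑ y, dens d a b c x y w =
      2 * L * ∑ x' : Fin L, ∑ y' : Fin L, kerd (d 2) c (add x' y') w := by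
    unfold Pool.Agent.Helper94.DG.dens
    have e1 : ∀ x : Fin L, ∑ y : Fin L, 2 * (L : ℝ) * ∑ x' : Fin L, ∑ y' : Fin L,
        kerd (d 0) a x' x * kerd (d 1) b y' y * kerd (d 2) c (add x' y') w =
        2 * L * ∑ x' : Fin L, ∑ y' : Fin L,
          kerd (d 0) a x' x * kerd (d 2) c (add x' y') w := by
      intro x
      rw [← Finset.mul_sum, Finset.sum_comm]
      congr 1
      refine Finset.sum_congr rfl fun x' _ => ?_
      rw [Finset.sum_comm]
      refine Finset.sum_congr rfl fun y' _ => ?_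
      have e2 : ∀ y : Fin L, kerd (d 0) a x' x * kerd (d 1) b y' y *
          kerd (d 2) c (add x' y') w =
          kerd (d 0) a x' x * kerd (d 2) c (add x' y') w * kerd (d 1) b y' y := fun y => by ring
      rw [Finset.sum_congr rfl (fun y _ => e2 y), ← Finset.mul_sum, kerd_sum, mul_one]
    rw [Finset.sum_congr rfl (fun x _ => e1 x), ← Finset.mul_sum, Finset.sum_comm]
    congr 1
    refine Finset.sum_congr rfl fun x' _ => ?_
    rw [Finset.sum_comm]
    refine Finset.sum_congr rfl fun y' _ => ?_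
    rw [← Finset.sum_mul, kerd_sum, one_mul]
  rw [h1]
  have h2 : ∑ x' : Fin L, ∑ y' : Fin L, kerd (d 2) c (add x' y') w ≤ L := by
    calc ∑ x' : Fin L, ∑ y' : Fin L, kerd (d 2) c (add x' y') w ≤ ∑ x' : Fin L, (1 : ℝ) :=
          Finset.sum_le_sum fun x' _ =>
            kerd_sum_inj (d 2) c w (fun y' : Fin L => add x' y') (add_inj_right x')
      _ = L := by simp
  have h3 : (0 : ℝ) ≤ 2 * L := by positivity
  calc 2 * (L : ℝ) * ∑ x' : Fin L, ∑ y' : Fin L, kerd (d 2) c (add x' y') w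
      ≤ 2 * L * L := mul_le_mul_of_nonneg_left h2 h3
    _ = 2 * (L : ℝ) ^ 2 := by ring

theorem dens_le_x {L : ℕ} (d : Fin 3 → Bool) (hd : d 0 = true) (a b : Fin L → ℕ)
    (c : Fin (2 * L) → ℕ) (x y : Fin L) (w : Fin (2 * L)) :
    dens d a b c x y w ≤ 2 * L * rcp a x := by
  unfold Pool.Agent.Helper94.DG.dens
  refine mul_le_mul_of_nonneg_left ?_ (by positivity)
  calc ∑ x' : Fin L, ∑ y' : Fin L,
        kerd (d 0) a x' x * kerd (d 1) b y' y * kerd (d 2) c (add x' y') w
      ≤ ∑ x' : Fin L, ∑ y' : Fin L,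
        rcp a x * kerd (d 1) b y' y * kerd (d 2) c (add x' y') w := by
        refine Finset.sum_le_sum fun x' _ => Finset.sum_le_sum fun y' _ => ?_
        refine mul_le_mul_of_nonneg_right (mul_le_mul_of_nonneg_right ?_ (kerd_nonneg _ _ _ _))
          (kerd_nonneg _ _ _ _)
        unfold kerd
        rw [hd, if_pos rfl]
        exact ker_le a x' x
    _ = ∑ y' : Fin L, rcp a x * kerd (d 1) b y' y * ∑ x' : Fin L,
        kerd (d 2) c (add x' y') w := by
        rw [Finset.sum_comm]
        exact Finset.sum_congr rfl fun y' _ => by rw [Finset.mul_sum]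
    _ ≤ ∑ y' : Fin L, rcp a x * kerd (d 1) b y' y * 1 := by
        refine Finset.sum_le_sum fun y' _ => mul_le_mul_of_nonneg_left ?_
          (mul_nonneg (rcp_nonneg _ _) (kerd_nonneg _ _ _ _))
        exact kerd_sum_inj (d 2) c w (fun x' : Fin L => add x' y') (add_inj_left y')
    _ = rcp a x := by
        rw [Finset.sum_congr rfl (fun y' _ => mul_one _), ← Finset.mul_sum, kerd_sum', mul_one]

theorem dens_le_y {L : ℕ} (d : Fin 3 → Bool) (hd : d 1 = true) (a b : Fin L → ℕ)
    (c : Fin (2 * L) → ℕ) (x y : Fin L) (w : Fin (2 * L)) :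
    dens d a b c x y w ≤ 2 * L * rcp b y := by
  unfold Pool.Agent.Helper94.DG.dens
  refine mul_le_mul_of_nonneg_left ?_ (by positivity)
  calc ∑ x' : Fin L, ∑ y' : Fin L,
        kerd (d 0) a x' x * kerd (d 1) b y' y * kerd (d 2) c (add x' y') w
      ≤ ∑ x' : Fin L, ∑ y' : Fin L,
        kerd (d 0) a x' x * rcp b y * kerd (d 2) c (add x' y') w := by
        refine Finset.sum_le_sum fun x' _ => Finset.sum_le_sum fun y' _ => ?_
        refine mul_le_mul_of_nonneg_right (mul_le_mul_of_nonneg_left ?_ (kerd_nonneg _ _ _ _))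
          (kerd_nonneg _ _ _ _)
        unfold kerd
        rw [hd, if_pos rfl]
        exact ker_le b y' y
    _ = ∑ x' : Fin L, kerd (d 0) a x' x * rcp b y * ∑ y' : Fin L,
        kerd (d 2) c (add x' y') w :=
        Finset.sum_congr rfl fun x' _ => by rw [Finset.mul_sum]
    _ ≤ ∑ x' : Fin L, kerd (d 0) a x' x * rcp b y * 1 := by
        refine Finset.sum_le_sum fun x' _ => mul_le_mul_of_nonneg_left ?_
          (mul_nonneg (kerd_nonneg _ _ _ _) (rcp_nonneg _ _))
        exact kerd_sum_inj (d 2) c w (fun y' : Fin L => add x' y') (add_inj_right x')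
    _ = rcp b y := by
        rw [Finset.sum_congr rfl (fun x' _ => mul_one _), ← Finset.sum_mul, kerd_sum', one_mul]

theorem dens_le_w {L : ℕ} (d : Fin 3 → Bool) (hd : d 2 = true) (a b : Fin L → ℕ)
    (c : Fin (2 * L) → ℕ) (x y : Fin L) (w : Fin (2 * L)) :
    dens d a b c x y w ≤ 2 * L * rcp c w := by
  unfold Pool.Agent.Helper94.DG.dens
  refine mul_le_mul_of_nonneg_left ?_ (by positivity)
  calc ∑ x' : Fin L, ∑ y' : Fin L,
        kerd (d 0) a x' x * kerd (d 1) b y' y * kerd (d 2) c (add x' y') w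
      ≤ ∑ x' : Fin L, ∑ y' : Fin L,
        kerd (d 0) a x' x * kerd (d 1) b y' y * rcp c w := by
        refine Finset.sum_le_sum fun x' _ => Finset.sum_le_sum fun y' _ => ?_
        refine mul_le_mul_of_nonneg_left ?_ (mul_nonneg (kerd_nonneg _ _ _ _)
          (kerd_nonneg _ _ _ _))
        unfold kerd
        rw [hd, if_pos rfl]
        exact ker_le c (add x' y') w
    _ = (∑ x' : Fin L, ∑ y' : Fin L, kerd (d 0) a x' x * kerd (d 1) b y' y) * rcp c w := by
        rw [Finset.sum_mul]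
        exact Finset.sum_congr rfl fun x' _ => by rw [Finset.sum_mul]
    _ = rcp c w := by rw [sum_two, one_mul]

theorem dens_sq {L : ℕ} (d : Fin 3 → Bool) (hd : ∃ s, d s = true) (a b : Fin L → ℕ)
    (c : Fin (2 * L) → ℕ) (Ka Kb Kc : ℕ) (ha : ∀ x, a x < Ka) (hb : ∀ y, b y < Kb)
    (hc : ∀ w, c w < Kc) :
    ∑ x, ∑ y, ∑ w, dens d a b c x y w ^ 2 ≤ 2 * ((Ka : ℝ) + Kb + Kc) * (2 * (L : ℝ) ^ 3) := by
  have hL : (0 : ℝ) ≤ L := Nat.cast_nonneg L
  have hL3 : (0 : ℝ) ≤ (L : ℝ) ^ 3 := by positivity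
  have hA := sum_rcp a Ka ha
  have hB := sum_rcp b Kb hb
  have hC := sum_rcp c Kc hc
  have hKa : (0 : ℝ) ≤ Ka := Nat.cast_nonneg _
  have hKb : (0 : ℝ) ≤ Kb := Nat.cast_nonneg _
  have hKc : (0 : ℝ) ≤ Kc := Nat.cast_nonneg _
  obtain ⟨s, hs⟩ := hd
  have key : s = 0 ∨ s = 1 ∨ s = 2 := by omega
  rcases key with rfl | rfl | rfl
  · have h1 : ∑ x, ∑ y, ∑ w, dens d a b c x y w ^ 2 ≤ 4 * (L : ℝ) ^ 3 * Ka := by
      calc ∑ x, ∑ y, ∑ w, dens d a b c x y w ^ 2
          ≤ ∑ x, ∑ y : Fin L, ∑ w, 2 * L * rcp a x * dens d a b c x y w := by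
            refine Finset.sum_le_sum fun x _ => Finset.sum_le_sum fun y _ =>
              Finset.sum_le_sum fun w _ => ?_
            rw [sq]
            exact mul_le_mul_of_nonneg_right (dens_le_x d hs a b c x y w)
              (dens_nonneg d a b c x y w)
        _ = ∑ x, 4 * (L : ℝ) ^ 3 * rcp a x := by
            refine Finset.sum_congr rfl fun x _ => ?_
            rw [Finset.sum_congr rfl (fun y _ => by rw [← Finset.mul_sum, dens_w]),
              Finset.sum_const, Finset.card_univ, Fintype.card_fin, nsmul_eq_mul]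
            ring
        _ = 4 * (L : ℝ) ^ 3 * ∑ x, rcp a x := by rw [Finset.mul_sum]
        _ ≤ 4 * (L : ℝ) ^ 3 * Ka := mul_le_mul_of_nonneg_left hA (by positivity)
    nlinarith [mul_nonneg hL3 hKb, mul_nonneg hL3 hKc]
  · have h1 : ∑ x, ∑ y, ∑ w, dens d a b c x y w ^ 2 ≤ 4 * (L : ℝ) ^ 3 * Kb := by
      calc ∑ x, ∑ y, ∑ w, dens d a b c x y w ^ 2
          ≤ ∑ x : Fin L, ∑ y, ∑ w, 2 * L * rcp b y * dens d a b c x y w := by
            refine Finset.sum_le_sum fun x _ => Finset.sum_le_sum fun y _ =>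
              Finset.sum_le_sum fun w _ => ?_
            rw [sq]
            exact mul_le_mul_of_nonneg_right (dens_le_y d hs a b c x y w)
              (dens_nonneg d a b c x y w)
        _ = ∑ x : Fin L, 4 * (L : ℝ) ^ 2 * ∑ y, rcp b y := by
            refine Finset.sum_congr rfl fun x _ => ?_
            rw [Finset.mul_sum]
            refine Finset.sum_congr rfl fun y _ => ?_
            rw [← Finset.mul_sum, dens_w]
            ring
        _ = 4 * (L : ℝ) ^ 3 * ∑ y, rcp b y := by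
            rw [Finset.sum_const, Finset.card_univ, Fintype.card_fin, nsmul_eq_mul]
            ring
        _ ≤ 4 * (L : ℝ) ^ 3 * Kb := mul_le_mul_of_nonneg_left hB (by positivity)
    nlinarith [mul_nonneg hL3 hKa, mul_nonneg hL3 hKc]
  · have h1 : ∑ x, ∑ y, ∑ w, dens d a b c x y w ^ 2 ≤ 4 * (L : ℝ) ^ 3 * Kc := by
      calc ∑ x, ∑ y, ∑ w, dens d a b c x y w ^ 2
          ≤ ∑ x, ∑ y, ∑ w, 2 * L * rcp c w * dens d a b c x y w := by
            refine Finset.sum_le_sum fun x _ => Finset.sum_le_sum fun y _ =>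
              Finset.sum_le_sum fun w _ => ?_
            rw [sq]
            exact mul_le_mul_of_nonneg_right (dens_le_w d hs a b c x y w)
              (dens_nonneg d a b c x y w)
        _ = ∑ w, 2 * L * rcp c w * ∑ x, ∑ y, dens d a b c x y w := by
            rw [Finset.sum_congr rfl (fun x _ => Finset.sum_comm), Finset.sum_comm]
            refine Finset.sum_congr rfl fun w _ => ?_
            rw [Finset.mul_sum]
            exact Finset.sum_congr rfl fun x _ => by rw [Finset.mul_sum]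
        _ ≤ ∑ w, 2 * L * rcp c w * (2 * (L : ℝ) ^ 2) := by
            refine Finset.sum_le_sum fun w _ => mul_le_mul_of_nonneg_left (dens_xy d a b c w) ?_
            exact mul_nonneg (by positivity) (rcp_nonneg c w)
        _ = 4 * (L : ℝ) ^ 3 * ∑ w, rcp c w := by
            rw [Finset.mul_sum]
            exact Finset.sum_congr rfl fun w _ => by ring
        _ ≤ 4 * (L : ℝ) ^ 3 * Kc := mul_le_mul_of_nonneg_left hC (by positivity)
    nlinarith [mul_nonneg hL3 hKa, mul_nonneg hL3 hKb]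

end Pool.Agent.Helper56.DG
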