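import Pool.Agent.Helper94.DG.Defs2

/-!
# Digests, second part: the weighted count for one side
-/

set_option autoImplicit false

open Finset

namespace Pool.Agent.Helper56.DG

open Pool.Agent.Helper94.DG

open Classical in
/-- The weight of the families with `P q (T q)` for some `q`. -/
theorem touch_one {α : Type} [Fintype α] (g : Fin 4 → α → ℝ) (F : Fin 4 → ℝ) (s : ℝ)
    (h0 : ∀ q T, 0 ≤ g q T) (hF : ∀ q, ∑ T, g q T ≤ F q) (hs0 : 0 ≤ s) (P : Fin 4 → α → Prop)
    (hs : ∀ q, ∑ T, g q T * (if P q T then 1 else 0) ≤ s) :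
    ∑ T : Fin 4 → α, (∏ q, g q (T q)) * (if ∃ q, P q (T q) then 1 else 0) ≤
      4 * s * ∏ q, (1 + F q) := by
  have hF0 : ∀ q, 0 ≤ F q := fun q => le_trans (Finset.sum_nonneg fun T _ => h0 q T) (hF q)
  have h1 : ∀ T : Fin 4 → α, (∏ q, g q (T q)) * (if ∃ q, P q (T q) then 1 else 0) ≤
      ∑ p : Fin 4, ∏ q, g q (T q) * (if q = p then (if P q (T q) then 1 else 0) else 1) := by
    intro T
    have hg : 0 ≤ ∏ q, g q (T q) := Finset.prod_nonneg fun q _ => h0 q (T q)
    have hterm : ∀ p : Fin 4, ∏ q, g q (T q) *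
        (if q = p then (if P q (T q) then (1 : ℝ) else 0) else 1) =
        (∏ q, g q (T q)) * (if P p (T p) then 1 else 0) := by
      intro p
      rw [Finset.prod_mul_distrib, Finset.prod_ite_eq' univ p, if_pos (Finset.mem_univ p)]
    rw [Finset.sum_congr rfl (fun p _ => hterm p), ← Finset.mul_sum]
    refine mul_le_mul_of_nonneg_left ?_ hg
    by_cases hex : ∃ q, P q (T q)
    · obtain ⟨q, hq⟩ := hex
      rw [if_pos ⟨q, hq⟩]
      calc (1 : ℝ) = (if P q (T q) then 1 else 0) := by rw [if_pos hq]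
        _ ≤ ∑ p : Fin 4, (if P p (T p) then (1 : ℝ) else 0) :=
            Finset.single_le_sum (f := fun p => if P p (T p) then (1 : ℝ) else 0)
              (fun p _ => by
                show (0 : ℝ) ≤ if P p (T p) then 1 else 0
                split_ifs
                · exact zero_le_one
                · exact le_rfl) (Finset.mem_univ q)
    · rw [if_neg hex]
      refine Finset.sum_nonneg fun p _ => ?_
      split_ifs
      · exact zero_le_one
      · exact le_rfl
  have h2 : ∀ p : Fin 4, ∑ T : Fin 4 → α, ∏ q, g q (T q) *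
      (if q = p then (if P q (T q) then (1 : ℝ) else 0) else 1) ≤ s * ∏ q, (1 + F q) := by
    intro p
    have e : ∑ T : Fin 4 → α, ∏ q, g q (T q) *
        (if q = p then (if P q (T q) then (1 : ℝ) else 0) else 1) =
        ∏ q, ∑ t : α, g q t * (if q = p then (if P q t then (1 : ℝ) else 0) else 1) := by
      rw [Finset.prod_univ_sum, Fintype.piFinset_univ]
    rw [e, ← Finset.mul_prod_erase univ _ (Finset.mem_univ p),
      ← Finset.mul_prod_erase univ (fun q => 1 + F q) (Finset.mem_univ p)]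
    have e1 : ∑ t : α, g p t * (if p = p then (if P p t then (1 : ℝ) else 0) else 1) ≤ s := by
      simpa using hs p
    have e2 : ∏ q ∈ univ.erase p, ∑ t : α, g q t *
        (if q = p then (if P q t then (1 : ℝ) else 0) else 1) ≤
        ∏ q ∈ univ.erase p, (1 + F q) := by
      refine Finset.prod_le_prod (fun q _ => Finset.sum_nonneg fun t _ =>
        mul_nonneg (h0 q t) ?_) fun q hq => ?_
      · split_ifs <;> norm_num
      · have hqp : q ≠ p := Finset.ne_of_mem_erase hq
        have : ∑ t : α, g q t * (if q = p then (if P q t then (1 : ℝ) else 0) else 1) =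
            ∑ t : α, g q t := Finset.sum_congr rfl fun t _ => by rw [if_neg hqp, mul_one]
        rw [this]
        linarith [hF q]
    have e3 : 0 ≤ ∏ q ∈ univ.erase p, ∑ t : α, g q t *
        (if q = p then (if P q t then (1 : ℝ) else 0) else 1) := by
      refine Finset.prod_nonneg fun q _ => Finset.sum_nonneg fun t _ => mul_nonneg (h0 q t) ?_
      split_ifs <;> norm_num
    have e4 : 0 ≤ ∏ q ∈ univ.erase p, (1 + F q) :=
      Finset.prod_nonneg fun q _ => by linarith [hF0 q]
    calc (∑ t : α, g p t * (if p = p then (if P p t then (1 : ℝ) else 0) else 1)) *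
          ∏ q ∈ univ.erase p, ∑ t : α, g q t *
            (if q = p then (if P q t then (1 : ℝ) else 0) else 1)
        ≤ s * ∏ q ∈ univ.erase p, (1 + F q) := mul_le_mul e1 e2 e3 hs0
      _ ≤ s * ((1 + F p) * ∏ q ∈ univ.erase p, (1 + F q)) := by
          refine mul_le_mul_of_nonneg_left ?_ hs0
          nlinarith [hF0 p, mul_nonneg (hF0 p) e4]
  calc ∑ T : Fin 4 → α, (∏ q, g q (T q)) * (if ∃ q, P q (T q) then 1 else 0)
      ≤ ∑ T : Fin 4 → α, ∑ p : Fin 4, ∏ q, g q (T q) *
        (if q = p then (if P q (T q) then 1 else 0) else 1) := Finset.sum_le_sum fun T _ => h1 T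
    _ = ∑ p : Fin 4, ∑ T : Fin 4 → α, ∏ q, g q (T q) *
        (if q = p then (if P q (T q) then (1 : ℝ) else 0) else 1) := Finset.sum_comm
    _ ≤ ∑ p : Fin 4, s * ∏ q, (1 + F q) := Finset.sum_le_sum fun p _ => h2 p
    _ = 4 * s * ∏ q, (1 + F q) := by
        rw [Finset.sum_const, Finset.card_univ, Fintype.card_fin, nsmul_eq_mul]
        push_cast
        ring

open Classical in
/-- Sums over the cells of a set. -/
theorem sum_cells {m : ℕ} (Q : Fin m → Fin m → Prop) (a : ℕ)
    (ha : (univ.filter fun e : Fin m × Fin m => Q e.1 e.2).card ≤ a) (f : Fin m → Fin m → ℝ)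
    (τ : ℝ) (hτ : 0 ≤ τ) (hf : ∀ i j, f i j ≤ τ) :
    ∑ i, ∑ j, f i j * (if Q i j then 1 else 0) ≤ τ * a := by
  have h1 : ∑ i, ∑ j, f i j * (if Q i j then (1 : ℝ) else 0) =
      ∑ e ∈ univ.filter (fun e : Fin m × Fin m => Q e.1 e.2), f e.1 e.2 := by
    rw [Finset.sum_filter, ← Finset.univ_product_univ, Finset.sum_product]
    refine Finset.sum_congr rfl fun i _ => Finset.sum_congr rfl fun j _ => ?_
    by_cases h : Q i j
    · simp [h]
    · simp [h]
  rw [h1]
  calc ∑ e ∈ univ.filter (fun e : Fin m × Fin m => Q e.1 e.2), f e.1 e.2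
      ≤ ∑ e ∈ univ.filter (fun e : Fin m × Fin m => Q e.1 e.2), τ :=
        Finset.sum_le_sum fun e _ => hf e.1 e.2
    _ = ((univ.filter fun e : Fin m × Fin m => Q e.1 e.2).card : ℝ) * τ := by
        rw [Finset.sum_const, nsmul_eq_mul]
    _ ≤ a * τ := mul_le_mul_of_nonneg_right (by exact_mod_cast ha) hτ
    _ = τ * a := mul_comm _ _

theorem sum_tri {m : ℕ} (f : Tri m → ℝ) : ∑ T : Tri m, f T = ∑ i, ∑ j, ∑ k, f (i, j, k) := by
  rw [← Finset.univ_product_univ, Finset.sum_product]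
  refine Finset.sum_congr rfl fun i _ => ?_
  rw [← Finset.univ_product_univ, Finset.sum_product]

open Classical in
theorem meet_min {m : ℕ} (hm : 0 < m) (g : Fin 4 → Tri m → ℝ) (F : Fin 4 → ℝ) (τ : ℝ)
    (h0 : ∀ q T, 0 ≤ g q T) (hF : ∀ q, ∑ T, g q T ≤ F q)
    (h01 : ∀ q i j, ∑ k, g q (i, j, k) ≤ τ) (h12 : ∀ q j k, ∑ i, g q (i, j, k) ≤ τ)
    (h02 : ∀ q i k, ∑ j, g q (i, j, k) ≤ τ) (A B C : Fin 4 → Fin m → Fin m → Prop)
    (a b c : ℕ) (ha : ∀ q, (univ.filter fun e : Fin m × Fin m => A q e.1 e.2).card ≤ a)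
    (hb : ∀ q, (univ.filter fun e : Fin m × Fin m => B q e.1 e.2).card ≤ b)
    (hc : ∀ q, (univ.filter fun e : Fin m × Fin m => C q e.1 e.2).card ≤ c) :
    ∑ T : Fin 4 → Tri m, (∏ q, g q (T q)) * (if Meets A B C T then 1 else 0) ≤
      4 * τ * min (a : ℝ) (min (b : ℝ) (c : ℝ)) * ∏ q, (1 + F q) := by
  have hτ : 0 ≤ τ := le_trans (Finset.sum_nonneg fun k _ => h0 0 (⟨0, hm⟩, ⟨0, hm⟩, k))
    (h01 0 ⟨0, hm⟩ ⟨0, hm⟩)
  -- a bound for each side
  have main : ∀ (P : Fin 4 → Tri m → Prop) (x : ℕ),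
      (∀ T, Meets A B C T → ∃ q, P q (T q)) →
      (∀ q, ∑ T, g q T * (if P q T then 1 else 0) ≤ τ * x) →
      ∑ T : Fin 4 → Tri m, (∏ q, g q (T q)) * (if Meets A B C T then 1 else 0) ≤
        4 * τ * (x : ℝ) * ∏ q, (1 + F q) := by
    intro P x hP hs
    refine le_trans (Finset.sum_le_sum fun T _ => ?_)
      (le_trans (touch_one g F (τ * x) h0 hF (by positivity) P hs) (le_of_eq (by ring)))
    refine mul_le_mul_of_nonneg_left ?_ (Finset.prod_nonneg fun q _ => h0 q (T q))
    by_cases hM : Meets A B C T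
    · rw [if_pos hM, if_pos (hP T hM)]
    · rw [if_neg hM]
      split_ifs
      · exact zero_le_one
      · exact le_rfl
  have hA : ∑ T : Fin 4 → Tri m, (∏ q, g q (T q)) * (if Meets A B C T then 1 else 0) ≤
        4 * τ * (a : ℝ) * ∏ q, (1 + F q) := by
    refine main (fun q T => A q T.1 T.2.1) a (fun T hT => hT.1) fun q => ?_
    rw [sum_tri]
    have e : ∀ i j : Fin m, ∑ k, g q (i, j, k) * (if A q i j then (1 : ℝ) else 0) =
        (∑ k, g q (i, j, k)) * (if A q i j then 1 else 0) := fun i j => by rw [Finset.sum_mul]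
    calc ∑ i, ∑ j, ∑ k, g q (i, j, k) * (if A q i j then (1 : ℝ) else 0)
        = ∑ i, ∑ j, (∑ k, g q (i, j, k)) * (if A q i j then 1 else 0) :=
          Finset.sum_congr rfl fun i _ => Finset.sum_congr rfl fun j _ => e i j
      _ ≤ τ * a := sum_cells (A q) a (ha q) _ τ hτ (h01 q)
  have hB : ∑ T : Fin 4 → Tri m, (∏ q, g q (T q)) * (if Meets A B C T then 1 else 0) ≤
        4 * τ * (b : ℝ) * ∏ q, (1 + F q) := by
    refine main (fun q T => B q T.2.1 T.2.2) b (fun T hT => hT.2.1) fun q => ?_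
    rw [sum_tri]
    calc ∑ i, ∑ j, ∑ k, g q (i, j, k) * (if B q j k then (1 : ℝ) else 0)
        = ∑ j, ∑ k, (∑ i, g q (i, j, k)) * (if B q j k then 1 else 0) := by
          rw [Finset.sum_comm]
          refine Finset.sum_congr rfl fun j _ => ?_
          rw [Finset.sum_comm]
          exact Finset.sum_congr rfl fun k _ => by rw [Finset.sum_mul]
      _ ≤ τ * b := sum_cells (B q) b (hb q) _ τ hτ (h12 q)
  have hC : ∑ T : Fin 4 → Tri m, (∏ q, g q (T q)) * (if Meets A B C T then 1 else 0) ≤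
        4 * τ * (c : ℝ) * ∏ q, (1 + F q) := by
    refine main (fun q T => C q T.1 T.2.2) c (fun T hT => hT.2.2) fun q => ?_
    rw [sum_tri]
    calc ∑ i, ∑ j, ∑ k, g q (i, j, k) * (if C q i k then (1 : ℝ) else 0)
        = ∑ i, ∑ k, (∑ j, g q (i, j, k)) * (if C q i k then 1 else 0) := by
          refine Finset.sum_congr rfl fun i _ => ?_
          rw [Finset.sum_comm]
          exact Finset.sum_congr rfl fun k _ => by rw [Finset.sum_mul]
      _ ≤ τ * c := sum_cells (C q) c (hc q) _ τ hτ (h02 q)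
  rcases min_choice (a : ℝ) (min (b : ℝ) (c : ℝ)) with h | h
  · rw [h]; exact hA
  · rw [h]
    rcases min_choice (b : ℝ) (c : ℝ) with h' | h'
    · rw [h']; exact hB
    · rw [h']; exact hC

end Pool.Agent.Helper56.DG
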