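import Pool.Agent.Helper94.DG.Defs

/-!
# Digests: few zero triangles in uniform arrays
-/

set_option autoImplicit false

open Finset

namespace Pool.Agent.Helper56.DG

open Pool.Agent.Helper94.DG

theorem one_place {m L : ℕ} (q : Fin 4) (i j k : Fin m) :
    (univ.filter fun S : Fin 4 → Arr m L =>
      add ((S q).1 i j) ((S q).2.1 j k) = (S q).2.2 i k).card * (2 * L) ≤
      Fintype.card (Fin 4 → Arr m L) := by
  classical
  set A := univ.filter fun S : Fin 4 → Arr m L =>
      add ((S q).1 i j) ((S q).2.1 j k) = (S q).2.2 i k with hA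
  have h1 : (A ×ˢ (univ : Finset (Fin (2 * L)))).card ≤
      (univ : Finset (Fin 4 → Arr m L)).card := by
    refine Finset.card_le_card_of_injOn
      (fun p => Function.update p.1 q ((p.1 q).1, (p.1 q).2.1, upd (p.1 q).2.2 i k p.2))
      (fun _ _ => Finset.mem_coe.2 (Finset.mem_univ _)) ?_
    rintro ⟨S, w⟩ hS ⟨S', w'⟩ hS' h
    have hS1 : add ((S q).1 i j) ((S q).2.1 j k) = (S q).2.2 i k := by
      have := (Finset.mem_product.1 (Finset.mem_coe.1 hS)).1
      exact (Finset.mem_filter.1 this).2
    have hS1' : add ((S' q).1 i j) ((S' q).2.1 j k) = (S' q).2.2 i k := by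
      have := (Finset.mem_product.1 (Finset.mem_coe.1 hS')).1
      exact (Finset.mem_filter.1 this).2
    simp only at h
    have hq := congrFun h q
    simp only [Function.update_self, Prod.mk.injEq] at hq
    obtain ⟨e1, e2, e3⟩ := hq
    have hw : w = w' := by
      have := congrFun (congrFun e3 i) k
      simpa [upd] using this
    have e4 : (S q).2.2 = (S' q).2.2 := by
      funext u v
      by_cases huv : u = i ∧ v = k
      · obtain ⟨rfl, rfl⟩ := huv
        rw [← hS1, ← hS1', e1, e2]
      · have := congrFun (congrFun e3 u) v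
        simpa [upd, huv] using this
    have hSq : S q = S' q := Prod.ext e1 (Prod.ext e2 e4)
    have hS2 : S = S' := by
      funext q'
      by_cases hq' : q' = q
      · rw [hq']; exact hSq
      · have := congrFun h q'
        simpa [Function.update_of_ne hq'] using this
    rw [hS2, hw]
  rwa [Finset.card_product, Finset.card_univ, Fintype.card_fin, Finset.card_univ] at h1

theorem few_yes {m L : ℕ} (hL : 0 < L) :
    ((univ.filter fun S : Fin 4 → Arr m L => ∃ (q : Fin 4) (i j k : Fin m),
      add ((S q).1 i j) ((S q).2.1 j k) = (S q).2.2 i k).card : ℝ) * (2 * L) ≤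
      4 * (m : ℝ) ^ 3 * Fintype.card (Fin 4 → Arr m L) := by
  classical
  have _ := hL
  have h1 : (univ.filter fun S : Fin 4 → Arr m L => ∃ (q : Fin 4) (i j k : Fin m),
      add ((S q).1 i j) ((S q).2.1 j k) = (S q).2.2 i k).card ≤
      ∑ t : Fin 4 × Fin m × Fin m × Fin m, (univ.filter fun S : Fin 4 → Arr m L =>
        add ((S t.1).1 t.2.1 t.2.2.1) ((S t.1).2.1 t.2.2.1 t.2.2.2) =
          (S t.1).2.2 t.2.1 t.2.2.2).card := by
    refine le_trans (Finset.card_le_card ?_) Finset.card_biUnion_le
    intro S hS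
    obtain ⟨q, i, j, k, h⟩ := (Finset.mem_filter.1 hS).2
    exact Finset.mem_biUnion.2 ⟨(q, i, j, k), Finset.mem_univ _,
      Finset.mem_filter.2 ⟨Finset.mem_univ _, h⟩⟩
  have h2 : (∑ t : Fin 4 × Fin m × Fin m × Fin m, (univ.filter fun S : Fin 4 → Arr m L =>
        add ((S t.1).1 t.2.1 t.2.2.1) ((S t.1).2.1 t.2.2.1 t.2.2.2) =
          (S t.1).2.2 t.2.1 t.2.2.2).card) * (2 * L) ≤
      4 * m ^ 3 * Fintype.card (Fin 4 → Arr m L) := by
    rw [Finset.sum_mul]
    refine le_trans (Finset.sum_le_sum fun t _ => one_place t.1 t.2.1 t.2.2.1 t.2.2.2) ?_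
    rw [Finset.sum_const, Finset.card_univ]
    simp only [Fintype.card_prod, Fintype.card_fin, smul_eq_mul]
    refine le_of_eq ?_
    ring
  have h3 : (univ.filter fun S : Fin 4 → Arr m L => ∃ (q : Fin 4) (i j k : Fin m),
      add ((S q).1 i j) ((S q).2.1 j k) = (S q).2.2 i k).card * (2 * L) ≤
      4 * m ^ 3 * Fintype.card (Fin 4 → Arr m L) :=
    le_trans (Nat.mul_le_mul_right _ h1) h2
  exact_mod_cast h3

end Pool.Agent.Helper56.DG
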