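import Pool.Agent.Helper94.DG.Defs
import Pool.Agent.Helper95.RV.Upper

/-!
# Digests: functions of three weights (after Helper28/DG/Upper.lean), with the cells in the statement
-/

set_option autoImplicit false

open Finset

namespace Pool.Agent.Helper56.DG

open Pool.Agent.Helper22.ETModel Pool.Agent.Helper8.VT Pool.Agent.Helper8.UV
open Pool.Agent.Helper53.TC5 Pool.Agent.Helper94.DG

variable {n : ℕ}

/-- the vote `1` for the triangle `i j k` of sum `0` -/
noncomputable def one (i j k : Fin n) (I : Inst n) : ℝ :=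
  if I.wt i j + I.wt j k + I.wt i k = 0 then 1 else 0

theorem has_cells {i j k u v : Fin n}
    (h : Has ({(i, j), (j, k), (i, k)} : Finset (Fin n × Fin n)) u v) :
    (u = i ∧ v = j) ∨ (u = j ∧ v = k) ∨ (u = i ∧ v = k) ∨
      (v = i ∧ u = j) ∨ (v = j ∧ u = k) ∨ (v = i ∧ u = k) := by
  unfold Has at h
  simp only [Finset.mem_insert, Finset.mem_singleton, Prod.mk.injEq] at h
  tauto

theorem side_cells {i j k : Fin n} (hi : (i : ℕ) % 3 = 0) (hj : (j : ℕ) % 3 = 1)
    (hk : (k : ℕ) % 3 = 2) {p q : ℕ} (hpq : p < q) (hq : q < 3) :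
    side p q ({(i, j), (j, k), (i, k)} : Finset (Fin n × Fin n)) ≤ 1 := by
  classical
  unfold side
  refine Finset.card_le_one.2 ?_
  rintro ⟨u, v⟩ hx ⟨u', v'⟩ hx'
  rw [mem_filter] at hx hx'
  obtain ⟨-, h1, h2, h3⟩ := hx
  obtain ⟨-, h1', h2', h3'⟩ := hx'
  simp only at h1 h2 h3 h1' h2' h3'
  rcases has_cells h3 with h | h | h | h | h | h <;>
  rcases has_cells h3' with h' | h' | h' | h' | h' | h' <;>
  obtain ⟨rfl, rfl⟩ := h <;> obtain ⟨rfl, rfl⟩ := h' <;>
  first
    | rfl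
    | (exfalso; omega)

theorem one_congr {i j k : Fin n} {f : Flags n} {w w' : Wts n}
    (h : ∀ u v : Fin n, Has ({(i, j), (j, k), (i, k)} : Finset (Fin n × Fin n)) u v →
      w u v = w' u v) : one i j k ⟨f, w⟩ = one i j k ⟨f, w'⟩ := by
  have h1 := h i j (Or.inl (by simp))
  have h2 := h j k (Or.inl (by simp))
  have h3 := h i k (Or.inl (by simp))
  unfold one
  simp only [h1, h2, h3]

theorem tri_one {a b c : ℕ} (ha : a ≤ 1) (hb : b ≤ 1) (hc : c ≤ 1) : tri n a b c ≤ 1 := by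
  refine le_trans (min_le_left _ _) ?_
  rw [Real.sqrt_le_one]
  have h1 : a * b * c ≤ 1 := by
    calc a * b * c ≤ 1 * 1 * 1 := Nat.mul_le_mul (Nat.mul_le_mul ha hb) hc
      _ = 1 := by norm_num
  exact_mod_cast h1

theorem one_sees (i j k : Fin n) (f : Flags n) : Sees (K := fun _ _ => 1) f (fun _ _ _ => 0)
    ({(i, j), (j, k), (i, k)} : Finset (Fin n × Fin n)) (one i j k) :=
  fun _ _ _ _ _ h => one_congr fun u v huv => h u v (Or.inl huv)

/-- A voter that sees only the exact weights of one triangle has the price one. -/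
theorem price1 {K : Fin n → Fin n → ℕ} (δ : Flags n → ∀ u v : Fin n, ℤ → Fin (K u v))
    (H : Inst n → ℝ) (u v z : Fin n) (hu : (u : ℕ) % 3 = 0) (hv : (v : ℕ) % 3 = 1)
    (hz : (z : ℕ) % 3 = 2)
    (hH : ∀ f : Flags n, Sees f (δ f) ({(u, v), (v, z), (u, z)} : Finset (Fin n × Fin n)) H) :
    PriceG δ H 1 := fun f =>
  ⟨{(u, v), (v, z), (u, z)}, hH f, tri_one (side_cells hu hv hz (by norm_num) (by norm_num))
    (side_cells hu hv hz (by norm_num) (by norm_num))
    (side_cells hu hv hz (by norm_num) (by norm_num))⟩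

private def c0 (a : Fin ((n + 2) / 3)) : Fin n := ⟨3 * a, by omega⟩
private def c1 (a : Fin ((n + 1) / 3)) : Fin n := ⟨3 * a + 1, by omega⟩
private def c2 (a : Fin (n / 3)) : Fin n := ⟨3 * a + 2, by omega⟩

theorem upper_three1 (n : ℕ) :
    ∃ H : Fin ((n + 2) / 3 * ((n + 1) / 3) * (n / 3)) → Inst n → ℝ,
      (∀ r, ∃ u v z : Fin n, (u : ℕ) % 3 = 0 ∧ (v : ℕ) % 3 = 1 ∧ (z : ℕ) % 3 = 2 ∧
        ∀ f : Flags n, Sees (K := fun _ _ => 1) f (fun _ _ _ => 0)
          ({(u, v), (v, z), (u, z)} : Finset (Fin n × Fin n)) (H r)) ∧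
      ∀ I : Inst n, I.Valid → Tripartite I → (0 < ∑ r, H r I ↔ I.Yes) := by
  refine ⟨fun r => one (c0 (finProdFinEquiv.symm (finProdFinEquiv.symm r).1).1)
    (c1 (finProdFinEquiv.symm (finProdFinEquiv.symm r).1).2) (c2 (finProdFinEquiv.symm r).2),
    fun r => ⟨_, _, _, ?_, ?_, ?_, fun f => one_sees _ _ _ f⟩, fun I hI hT => ?_⟩
  · simp only [c0]
    omega
  · simp only [c1]
    omega
  · simp only [c2]
    omega
  rw [Pool.Agent.Helper95.RV.yes_iff I hI hT]
  have h0 : ∀ i j k : Fin n, 0 ≤ one i j k I := fun i j k => by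
    unfold one
    split_ifs
    · exact zero_le_one
    · exact le_refl _
  constructor
  · intro h
    obtain ⟨r, _, hr⟩ := Finset.exists_ne_zero_of_sum_ne_zero h.ne'
    unfold one at hr
    rw [ite_ne_right_iff] at hr
    refine ⟨_, _, _, ?_, ?_, ?_, hr.1⟩
    · simp only [c0]
      omega
    · simp only [c1]
      omega
    · simp only [c2]
      omega
  · rintro ⟨i, j, k, hi, hj, hk, h⟩
    have hin := i.isLt
    have hjn := j.isLt
    have hkn := k.isLt
    set r := finProdFinEquiv (finProdFinEquiv ((⟨(i : ℕ) / 3, by omega⟩ : Fin ((n + 2) / 3)),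
      (⟨(j : ℕ) / 3, by omega⟩ : Fin ((n + 1) / 3))), (⟨(k : ℕ) / 3, by omega⟩ : Fin (n / 3)))
      with hr
    refine Finset.sum_pos' (fun _ _ => h0 _ _ _) ⟨r, Finset.mem_univ _, ?_⟩
    beta_reduce
    rw [hr, Equiv.symm_apply_apply, Equiv.symm_apply_apply]
    have e0 : c0 (⟨(i : ℕ) / 3, by omega⟩ : Fin ((n + 2) / 3)) = i := by
      apply Fin.ext
      simp only [c0]
      omega
    have e1 : c1 (⟨(j : ℕ) / 3, by omega⟩ : Fin ((n + 1) / 3)) = j := by
      apply Fin.ext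
      simp only [c1]
      omega
    have e2 : c2 (⟨(k : ℕ) / 3, by omega⟩ : Fin (n / 3)) = k := by
      apply Fin.ext
      simp only [c2]
      omega
    rw [e0, e1, e2]
    unfold one
    rw [if_pos h]
    exact zero_lt_one

end Pool.Agent.Helper56.DG
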